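import Pool.Agent.H380Z.Mom.Defs

set_option autoImplicit false
set_option linter.unusedSectionVars false

open Finset

namespace H380Z.Mom

variable {k : Type} [Field k]

/-- Gale duality for points on the moment curve, codimension two. -/
lemma gale {V : Type} [Fintype V] [DecidableEq V] {B : Type} [CommRing B] [Algebra k B]
    (t : V → k) (ht : Function.Injective t) (d : ℕ) (hd : Fintype.card V = d + 2) (y : V → B)
    (hy : ∀ j < d, ∑ v, t v ^ j • y v = 0) :
    ∃ σ τ : B, ∀ v, ∃ w : k, w ≠ 0 ∧ w • y v = σ - t v • τ := by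
  classical
  let E : Polynomial k →ₗ[k] B :=
    { toFun := fun f => ∑ v, f.eval (t v) • y v
      map_add' := fun f g => by simp [add_smul, sum_add_distrib]
      map_smul' := fun c f => by simp [smul_sum, mul_smul] }
  have hE : ∀ f : Polynomial k, E f = ∑ v, f.eval (t v) • y v := fun _ => rfl
  have hlow : ∀ f : Polynomial k, f.degree < d → E f = 0 := by
    intro f hf
    have hf' : f = ∑ j ∈ range d, f.coeff j • (Polynomial.X ^ j : Polynomial k) := by
      ext i
      simp only [Polynomial.finsetSum_coeff, Polynomial.coeff_smul, Polynomial.coeff_X_pow,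
        smul_eq_mul, mul_ite, mul_one, mul_zero, sum_ite_eq, mem_range]
      split_ifs with h
      · rfl
      · exact Polynomial.coeff_eq_zero_of_degree_lt
          (lt_of_lt_of_le hf (by exact_mod_cast not_lt.mp h))
    rw [hf', map_sum]
    refine sum_eq_zero fun j hj => ?_
    rw [map_smul, hE]
    simp only [Polynomial.eval_pow, Polynomial.eval_X]
    rw [hy j (mem_range.mp hj), smul_zero]
  have hne : Nonempty V := Fintype.card_pos_iff.mp (by omega)
  obtain ⟨v0⟩ := hne
  let P : Finset V → Polynomial k := fun s => ∏ u ∈ s, (Polynomial.X - Polynomial.C (t u))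
  have hPm : ∀ s, (P s).Monic := fun s =>
    Polynomial.monic_prod_of_monic _ _ fun u _ => Polynomial.monic_X_sub_C _
  have hPd : ∀ s, (P s).natDegree = s.card := fun s => by
    simp only [P]
    rw [Polynomial.natDegree_prod_of_monic _ _ fun u _ => Polynomial.monic_X_sub_C _]
    simp
  have hPv : ∀ v, E (P (univ.erase v)) = (P (univ.erase v)).eval (t v) • y v := by
    intro v
    rw [hE, sum_eq_single v]
    · intro u _ hu
      have : (P (univ.erase v)).eval (t u) = 0 := by
        simp only [P, Polynomial.eval_prod]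
        exact prod_eq_zero (i := u) (by simp [hu]) (by simp)
      rw [this, zero_smul]
    · simp
  have hw : ∀ v, (P (univ.erase v)).eval (t v) ≠ 0 := by
    intro v
    simp only [P, Polynomial.eval_prod]
    refine prod_ne_zero_iff.mpr fun u hu => ?_
    simp only [Polynomial.eval_sub, Polynomial.eval_X, Polynomial.eval_C]
    exact sub_ne_zero.mpr fun h => (mem_erase.mp hu).1 (ht h).symm
  refine ⟨E (P (univ.erase v0)) - t v0 • E (Polynomial.X ^ d), - E (Polynomial.X ^ d), fun v =>
    ⟨_, hw v, ?_⟩⟩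
  rw [← hPv]
  by_cases hv : v = v0
  · subst hv; simp
  · have hR : E (P ((univ.erase v).erase v0)) = E (Polynomial.X ^ d) := by
      rw [← sub_eq_zero, ← map_sub]
      apply hlow
      have hc : ((univ.erase v).erase v0).card = d := by
        rw [card_erase_of_mem (by simp [Ne.symm hv]), card_erase_of_mem (mem_univ _), card_univ]
        omega
      have h1 : (P ((univ.erase v).erase v0)).degree = d := by
        rw [Polynomial.degree_eq_natDegree (hPm _).ne_zero, hPd, hc]
      have h2 := Polynomial.degree_sub_lt_left (p := P ((univ.erase v).erase v0))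
        (q := Polynomial.X ^ d) (by rw [h1]; simp) (hPm _).ne_zero
        (by rw [(hPm _).leadingCoeff]; simp)
      rwa [h1] at h2
    have e1 : P (univ.erase v) =
        (Polynomial.X - Polynomial.C (t v0)) * P ((univ.erase v).erase v0) :=
      (mul_prod_erase (univ.erase v) _ (by simp [Ne.symm hv])).symm
    have e2 : P (univ.erase v0) =
        (Polynomial.X - Polynomial.C (t v)) * P ((univ.erase v).erase v0) := by
      rw [erase_right_comm]
      exact (mul_prod_erase (univ.erase v0) _ (by simp [hv])).symm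
    have e3 : P (univ.erase v) = P (univ.erase v0)
        + (t v - t v0) • P ((univ.erase v).erase v0) := by
      rw [e1, e2, Polynomial.smul_eq_C_mul, Polynomial.C_sub]
      ring
    rw [e3, map_add, map_smul, hR, sub_smul, smul_neg]
    abel

/-- The join of the boundaries of two `m`-simplices. -/
def joinBd (m : ℕ) : Set (Finset (Fin (m + 1) ⊕ Fin (m + 1))) :=
  {F | (∃ i, Sum.inl i ∉ F) ∧ ∃ j, Sum.inr j ∉ F}

open MvPolynomial in
lemma not_lefschetz (m : ℕ) (hm : 1 ≤ m) (t : Fin (m + 1) ⊕ Fin (m + 1) → k)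
    (ht : Function.Injective t) (ht0 : ∀ v, t v ≠ 0)
    (hnil : ∀ (B : Type) [CommRing B] [Algebra k B] (σ τ : B),
      ∏ i, (σ - t (Sum.inl i) • τ) = 0 → ∏ i, (σ - t (Sum.inr i) • τ) = 0 →
      ∀ α β : k, (α • σ + β • τ) ^ (2 * m) = 0) :
    ¬ LefschetzA (2 * m) (redIdeal (2 * m) (joinBd m) t) := by
  classical
  set J := redIdeal (2 * m) (joinBd m) t with hJ
  let π : MvPolynomial (Fin (m + 1) ⊕ Fin (m + 1)) k →ₐ[k] _ := Ideal.Quotient.mkₐ k J
  have hθ : ∀ j < 2 * m, ∑ v, t v ^ j • (t v • π (X v)) = 0 := by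
    intro j hj
    have h1 : theta t (j + 1) ∈ J :=
      Ideal.mem_sup_right (Ideal.subset_span ⟨j + 1, by omega, by omega, rfl⟩)
    have h2 : π (theta t (j + 1)) = 0 := Ideal.Quotient.eq_zero_iff_mem.mpr h1
    rw [theta, map_sum] at h2
    rw [← h2]
    refine sum_congr rfl fun v _ => ?_
    rw [← smul_eq_C_mul, map_smul, smul_smul, pow_succ]
  obtain ⟨σ, τ, hst⟩ := gale t ht (2 * m) (by simp; ring) _ hθ
  choose w hw0 hw using hst
  have hprod : ∀ (e : Fin (m + 1) → Fin (m + 1) ⊕ Fin (m + 1)), Function.Injective e →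
      univ.image e ∉ joinBd m → ∏ i, (σ - t (e i) • τ) = 0 := by
    intro e he hF
    have h1 : (∏ v ∈ univ.image e, X v) ∈ J :=
      Ideal.mem_sup_left (Ideal.subset_span ⟨_, hF, rfl⟩)
    have h2 : π (∏ v ∈ univ.image e, X v) = 0 := Ideal.Quotient.eq_zero_iff_mem.mpr h1
    rw [prod_image (fun a _ b _ h => he h), map_prod] at h2
    simp only [← hw, smul_smul]
    rw [prod_smul, h2, smul_zero]
  have hL := hprod Sum.inl Sum.inl_injective (by simp [joinBd])
  have hR := hprod Sum.inr Sum.inr_injective (by simp [joinBd])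
  have hlin : ∀ f : MvPolynomial (Fin (m + 1) ⊕ Fin (m + 1)) k, f.IsHomogeneous 1 →
      ∃ α β : k, π f = α • σ + β • τ := by
    intro f hf
    have hf' : f ∈ Submodule.span k (Set.range (X : _ → MvPolynomial _ k)) := by
      rw [← homogeneousSubmodule_one_eq_span_X]; exact hf
    refine Submodule.span_induction (p := fun f _ => ∃ α β : k, π f = α • σ + β • τ)
      ?_ ?_ ?_ ?_ hf'
    · rintro _ ⟨v, rfl⟩
      refine ⟨(w v * t v)⁻¹, -((w v * t v)⁻¹ * t v), ?_⟩
      have h1 := hw v
      rw [smul_smul] at h1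
      have h2 : π (X v) = (w v * t v)⁻¹ • ((w v * t v) • π (X v)) := by
        rw [smul_smul, inv_mul_cancel₀ (mul_ne_zero (hw0 v) (ht0 v)), one_smul]
      rw [h2, h1, smul_sub, smul_smul, neg_smul, sub_eq_add_neg]
    · exact ⟨0, 0, by simp⟩
    · rintro f g _ _ ⟨a, b, h1⟩ ⟨a', b', h2⟩
      exact ⟨a + a', b + b', by rw [map_add, h1, h2, add_smul, add_smul]; abel⟩
    · rintro c f _ ⟨a, b, h1⟩
      exact ⟨c * a, c * b, by rw [map_smul, h1, smul_add, smul_smul, smul_smul]⟩
  rintro ⟨_, ⟨f, hf, rfl⟩, hl⟩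
  obtain ⟨α, β, hαβ⟩ := hlin f hf
  have hz : (Ideal.Quotient.mk J f) ^ (2 * m) = 0 := by
    have := hnil _ σ τ hL hR α β
    rw [← hαβ] at this
    exact this
  have h01 := (hl 0 (by omega)).injOn (x₁ := 1) ⟨1, isHomogeneous_one _ _, map_one _⟩ (x₂ := 0)
    ⟨0, isHomogeneous_zero _ _ _, map_zero _⟩ (by simp [hz])
  have h1J : (1 : MvPolynomial (Fin (m + 1) ⊕ Fin (m + 1)) k) ∈ J :=
    Ideal.Quotient.eq_zero_iff_mem.mp (by rw [map_one]; exact h01)
  have hle : J ≤ RingHom.ker (constantCoeff : MvPolynomial (Fin (m + 1) ⊕ Fin (m + 1)) k →+* k) := by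
    refine sup_le (Ideal.span_le.mpr ?_) (Ideal.span_le.mpr ?_)
    · rintro _ ⟨F, hF, rfl⟩
      have hne : F.Nonempty := by
        rcases F.eq_empty_or_nonempty with h | h
        · subst h
          exact absurd (by simp [joinBd]) hF
        · exact h
      obtain ⟨v, hv⟩ := hne
      simp only [SetLike.mem_coe, RingHom.mem_ker, map_prod]
      exact prod_eq_zero hv (by simp)
    · rintro _ ⟨j, _, _, rfl⟩
      simp [theta]
  have := hle h1J
  simp at this

end H380Z.Mom
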