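import Pool.Agent.H380Z.Mom.Defs

set_option autoImplicit false
set_option linter.unusedSectionVars false

open Finset MvPolynomial

namespace H380Z.Mom

variable {k : Type} [Field k] {n : ℕ}

/-- the chain attached to a cubic functional -/
noncomputable def mu (t : Fin n → k) (φ : MvPolynomial (Fin n) k →ₗ[k] k) (F : Finset (Fin n)) :
    k :=
  if h : F.card = 3 then
    (Matrix.of fun i j : Fin 3 => t (F.orderEmbOfFin h i) ^ (j.1 + 1)).det * φ (∏ v ∈ F, X v)
  else 0

lemma mu_sorted (t : Fin n → k) (φ : MvPolynomial (Fin n) k →ₗ[k] k) {a b c : Fin n}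
    (hab : a < b) (hbc : b < c) :
    mu t φ {a, b, c} = t a * t b * t c * (t b - t a) * (t c - t a) * (t c - t b)
      * φ (X a * X b * X c) := by
  have hac := hab.trans hbc
  have hc : ({a, b, c} : Finset (Fin n)).card = 3 :=
    card_eq_three.mpr ⟨a, b, c, hab.ne, hac.ne, hbc.ne, rfl⟩
  have he : ![a, b, c] = ({a, b, c} : Finset (Fin n)).orderEmbOfFin hc := by
    apply orderEmbOfFin_unique
    · intro x; fin_cases x <;> simp
    · rw [Fin.strictMono_iff_lt_succ]
      intro i; fin_cases i
      · exact hab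
      · exact hbc
  rw [mu, dif_pos hc, ← he, prod_insert (by simp [hab.ne, hac.ne]), prod_pair hbc.ne,
    Matrix.det_fin_three, ← mul_assoc (X a)]
  simp
  left
  ring

lemma det_ne (t : Fin n → k) (ht : Function.Injective t) (ht0 : ∀ v, t v ≠ 0) {d : ℕ}
    (e : Fin d → Fin n) (he : Function.Injective e) :
    (Matrix.of fun i j : Fin d => t (e i) ^ (j.1 + 1)).det ≠ 0 := by
  have : (Matrix.of fun i j : Fin d => t (e i) ^ (j.1 + 1))
      = Matrix.of fun i j : Fin d => t (e i) * Matrix.vandermonde (t ∘ e) i j := by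
    ext i j; simp [pow_succ, mul_comm]
  rw [this, Matrix.det_mul_column]
  exact mul_ne_zero (prod_ne_zero_iff.mpr fun i _ => ht0 _)
    (Matrix.det_vandermonde_ne_zero_iff.mpr (ht.comp he))

section
variable (t : Fin n → k) (ht : Function.Injective t) (ht0 : ∀ v, t v ≠ 0)
  (φ : MvPolynomial (Fin n) k →ₗ[k] k)
  (h1 : ∀ r j, 1 ≤ j → j ≤ 3 → φ (r * theta t j) = 0)
include h1

lemma rel (r : MvPolynomial (Fin n) k) (c1 c2 c3 : k) :
    ∑ w, (c1 * t w + c2 * t w ^ 2 + c3 * t w ^ 3) * φ (r * X w) = 0 := by
  have e : ∀ j, 1 ≤ j → j ≤ 3 → ∑ w, t w ^ j * φ (r * X w) = 0 := by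
    intro j a b
    rw [← h1 r j a b, theta, mul_sum, map_sum]
    refine sum_congr rfl fun w _ => ?_
    rw [mul_left_comm, ← smul_eq_C_mul, map_smul, smul_eq_mul]
  have e1 := e 1 (by omega) (by omega)
  have e2 := e 2 (by omega) (by omega)
  have e3 := e 3 (by omega) (by omega)
  simp only [add_mul, sum_add_distrib, mul_assoc, ← mul_sum]
  simp only [pow_one] at e1
  rw [e1, e2, e3]
  simp

include ht ht0

lemma tau_distinct {a b c : Fin n} (hab : a ≠ b) (hac : a ≠ c) (hbc : b ≠ c)
    (h : ({a, b, c} : Finset (Fin n)) ∉ support (mu t φ)) : φ (X a * X b * X c) = 0 := by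
  have hc : ({a, b, c} : Finset (Fin n)).card = 3 := card_eq_three.mpr ⟨a, b, c, hab, hac, hbc, rfl⟩
  have h0 : mu t φ {a, b, c} = 0 := by
    by_contra h0
    exact h ⟨_, h0, subset_rfl⟩
  rw [mu, dif_pos hc, prod_insert (by simp [hab, hac]), prod_pair hbc, ← mul_assoc (X a)] at h0
  exact (mul_eq_zero.mp h0).resolve_left (det_ne t ht ht0 _ (orderEmbOfFin _ hc).injective)

lemma tau_pair {u v : Fin n} (huv : u ≠ v)
    (h : ({u, v} : Finset (Fin n)) ∉ support (mu t φ)) : φ (X u * X v * X u) = 0 := by
  have e := rel t φ h1 (X u * X v) (-t v) 1 0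
  rw [sum_eq_single u] at e
  · refine (mul_eq_zero.mp e).resolve_left ?_
    have : -t v * t u + 1 * t u ^ 2 + 0 * t u ^ 3 = t u * (t u - t v) := by ring
    rw [this]
    exact mul_ne_zero (ht0 u) (sub_ne_zero.mpr fun h => huv (ht h))
  · intro w _ hwu
    by_cases hwv : w = v
    · subst hwv
      have : -t w * t w + 1 * t w ^ 2 + 0 * t w ^ 3 = 0 := by ring
      rw [this, zero_mul]
    · rw [tau_distinct t ht ht0 φ h1 huv (Ne.symm hwu) (Ne.symm hwv), mul_zero]
      rintro ⟨F, hF, hs⟩
      exact h ⟨F, hF, subset_trans (by intro x; simp; tauto) hs⟩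
  · simp

lemma tau_single {u : Fin n} (h : ({u} : Finset (Fin n)) ∉ support (mu t φ)) :
    φ (X u * X u * X u) = 0 := by
  have e := rel t φ h1 (X u * X u) 1 0 0
  rw [sum_eq_single u] at e
  · refine (mul_eq_zero.mp e).resolve_left ?_
    simpa using ht0 u
  · intro w _ hwu
    have := tau_pair t ht ht0 φ h1 (Ne.symm hwu) (by
      rintro ⟨F, hF, hs⟩
      exact h ⟨F, hF, subset_trans (by simp) hs⟩)
    rw [mul_right_comm, this, mul_zero]
  · simp

lemma tau_all (a b c : Fin n) (h : ({a, b, c} : Finset (Fin n)) ∉ support (mu t φ)) :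
    φ (X a * X b * X c) = 0 := by
  by_cases hab : a = b
  · subst hab
    by_cases hac : a = c
    · subst hac
      exact tau_single t ht ht0 φ h1 (by simpa using h)
    · rw [mul_right_comm]
      exact tau_pair t ht ht0 φ h1 hac (by simpa using h)
  by_cases hac : a = c
  · subst hac
    refine tau_pair t ht ht0 φ h1 hab ?_
    have : ({a, b, a} : Finset (Fin n)) = {a, b} := by ext x; simp; tauto
    rwa [this] at h
  by_cases hbc : b = c
  · subst hbc
    rw [mul_comm (X a)]
    refine tau_pair t ht ht0 φ h1 (Ne.symm hab) ?_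
    have : ({a, b, b} : Finset (Fin n)) = {b, a} := by ext x; simp; tauto
    rwa [this] at h
  exact tau_distinct t ht ht0 φ h1 hab hac hbc h

variable (h2 : ∀ l : Multiset (Fin n), l.card ≠ 3 → φ (l.map X).prod = 0)
include h2

lemma nonface (F : Finset (Fin n)) (hF : F ∉ support (mu t φ)) (r : MvPolynomial (Fin n) k) :
    φ (r * ∏ v ∈ F, X v) = 0 := by
  suffices H : ∀ l : Multiset (Fin n), φ (r * ((l + F.val).map X).prod) = 0 by
    have := H 0
    rwa [zero_add] at this
  induction r using MvPolynomial.induction_on with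
  | C a =>
    intro l
    rw [← smul_eq_C_mul, map_smul]
    by_cases hc : (l + F.val).card = 3
    · obtain ⟨x, y, z, e⟩ := Multiset.card_eq_three.mp hc
      have hs : F ⊆ {x, y, z} := by
        intro v hv
        have : v ∈ l + F.val := Multiset.mem_add.mpr (Or.inr hv)
        rw [e] at this
        simpa using this
      have := tau_all t ht ht0 φ h1 x y z (by
        rintro ⟨G, hG, hs'⟩
        exact hF ⟨G, hG, hs.trans hs'⟩)
      rw [e]
      simp only [Multiset.insert_eq_cons, Multiset.map_cons, Multiset.prod_cons,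
        Multiset.map_singleton, Multiset.prod_singleton]
      rw [← mul_assoc, this, smul_zero]
    · rw [h2 _ hc, smul_zero]
  | add p q hp hq =>
    intro l
    rw [add_mul, map_add, hp, hq, add_zero]
  | mul_X p v hp =>
    intro l
    have := hp (v ::ₘ l)
    rw [Multiset.cons_add, Multiset.map_cons, Multiset.prod_cons, ← mul_assoc] at this
    exact this

lemma mu_ne (h3 : φ ≠ 0) : mu t φ ≠ 0 := by
  intro h
  apply h3
  refine LinearMap.ext fun r => ?_
  have := nonface t ht ht0 φ h1 h2 ∅ (by rintro ⟨F, hF, -⟩; exact hF (by rw [h]; rfl)) r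
  simpa using this

lemma mu_eval : IsEval 3 t (mu t φ) φ := by
  refine ⟨fun f hf _ => ?_, fun F h => by rw [mu, dif_pos h]⟩
  let K : Ideal (MvPolynomial (Fin n) k) :=
    { carrier := {f | ∀ r, φ (r * f) = 0}
      add_mem' := fun {a b} ha hb r => by rw [mul_add, map_add, ha r, hb r, add_zero]
      zero_mem' := fun r => by simp
      smul_mem' := fun c x hx r => by rw [smul_eq_mul, ← mul_assoc]; exact hx _ }
  have hle : redIdeal 3 (support (mu t φ)) t ≤ K := by
    refine sup_le (Ideal.span_le.mpr ?_) (Ideal.span_le.mpr ?_)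
    · rintro _ ⟨F, hF, rfl⟩ r
      exact nonface t ht ht0 φ h1 h2 F hF r
    · rintro _ ⟨j, a, b, rfl⟩ r
      exact h1 r j a b
  simpa using hle hf 1

omit h2 ht ht0 in
lemma mu_cycle : IsCycle 3 (mu t φ) := by
  refine ⟨fun F hF => ?_, fun G hG => ?_⟩
  · by_contra h
    exact hF (by rw [mu, dif_neg h])
  · have hG2 : G.card = 2 := by omega
    obtain ⟨u, v, huv, rfl⟩ : ∃ u v, u < v ∧ G = {u, v} := by
      obtain ⟨x, y, hxy, rfl⟩ := card_eq_two.mp hG2
      rcases lt_or_gt_of_ne hxy with h | h
      · exact ⟨x, y, h, rfl⟩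
      · exact ⟨y, x, h, pair_comm _ _⟩
    set D := t u * t v * (t v - t u) with hD
    have e := rel t φ h1 (X u * X v) (D * (t u * t v)) (-(D * (t u + t v))) D
    rw [← e, ← sum_subset (subset_univ (univ \ {u, v}))]
    · refine sum_congr rfl fun w hw => ?_
      simp only [mem_sdiff, mem_univ, mem_insert, mem_singleton, not_or, true_and] at hw
      rcases lt_trichotomy w u with h | h | h
      · have hf : (({u, v} : Finset (Fin n)).filter (· < w)) = ∅ := by
          ext x; simp; rintro (rfl | rfl) <;> omega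
        rw [hf, mu_sorted t φ h huv, hD]
        have : (X w * X u * X v : MvPolynomial (Fin n) k) = X u * X v * X w := by ring
        rw [this]
        simp
        left
        ring
      · exact absurd h hw.1
      · rcases lt_trichotomy w v with h' | h' | h'
        · have hf : (({u, v} : Finset (Fin n)).filter (· < w)) = {u} := by
            ext x; simp; omega
          have hi : (insert w {u, v} : Finset (Fin n)) = {u, w, v} := insert_comm _ _ _
          rw [hf, hi, mu_sorted t φ h h', hD]
          have : (X u * X w * X v : MvPolynomial (Fin n) k) = X u * X v * X w := by ring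
          rw [this, card_singleton]
          ring
        · exact absurd h' hw.2
        · have hf : (({u, v} : Finset (Fin n)).filter (· < w)) = {u, v} := by
            ext x; simp; omega
          have hi : (insert w {u, v} : Finset (Fin n)) = {u, v, w} := by
            ext x; simp; tauto
          rw [hf, hi, mu_sorted t φ huv h', hD, card_pair huv.ne]
          ring
    · intro w _ hw
      simp only [mem_sdiff, mem_univ, mem_insert, mem_singleton, true_and, not_not] at hw
      rcases hw with rfl | rfl <;> ring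

end

end H380Z.Mom
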