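import Mathlib

/-! Face rings, the moment-curve system of parameters, and the hard Lefschetz property. -/

set_option autoImplicit false

open MvPolynomial

namespace H380Z.Mom

section
variable {V : Type} [Fintype V] [DecidableEq V]

/-- `Δ` (a family of vertex sets) is the boundary complex of a simplicial convex `d`-polytope with
vertex set `V`: there are points `q v` affinely spanning `ℝ^d` such that the members of `Δ` are
exactly the vertex sets cut out by supporting hyperplanes (proper faces, the empty face included),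
every point is a vertex, and every subset of a face is a face (all faces are simplices). -/
def IsPolytopeBoundary (d : ℕ) (Δ : Set (Finset V)) : Prop :=
  (∀ v, ({v} : Finset V) ∈ Δ) ∧ (∀ F ∈ Δ, ∀ G, G ⊆ F → G ∈ Δ) ∧
  ∃ q : V → (Fin d → ℝ), affineSpan ℝ (Set.range q) = ⊤ ∧
    ∀ F : Finset V, F ∈ Δ ↔ F ≠ Finset.univ ∧
      ∃ (c : (Fin d → ℝ) →ₗ[ℝ] ℝ) (b : ℝ), (∀ v ∈ F, c (q v) = b) ∧ ∀ v ∉ F, c (q v) < b

variable {k : Type} [Field k]

/-- The moment-curve linear form `θ_j = ∑_v t_v ^ j x_v`. -/
noncomputable def theta (t : V → k) (j : ℕ) : MvPolynomial V k := ∑ v, C (t v ^ j) * X v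

/-- The ideal `I_Δ + (θ_1, …, θ_d)`; the quotient by it is the Artinian reduction. -/
noncomputable def redIdeal (d : ℕ) (Δ : Set (Finset V)) (t : V → k) : Ideal (MvPolynomial V k) :=
  Ideal.span {f | ∃ F : Finset V, F ∉ Δ ∧ f = ∏ v ∈ F, X v} ⊔
    Ideal.span {f | ∃ j, 1 ≤ j ∧ j ≤ d ∧ f = theta t j}

/-- The degree `j` part of the quotient by `J`. -/
def piece (J : Ideal (MvPolynomial V k)) (j : ℕ) : Set (MvPolynomial V k ⧸ J) :=
  Ideal.Quotient.mk J '' {f | f.IsHomogeneous j}

/-- Hard Lefschetz property of `A = k[x] / J` with top degree `d`. -/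
def LefschetzA (d : ℕ) (J : Ideal (MvPolynomial V k)) : Prop :=
  ∃ l ∈ piece J 1, ∀ j, 2 * j ≤ d →
    Set.BijOn (fun a => l ^ (d - 2 * j) * a) (piece J j) (piece J (d - j))

/-- `a` pairs to zero under `φ` with every form of degree `i`. -/
def Null (φ : MvPolynomial V k →ₗ[k] k) (i : ℕ) (a : MvPolynomial V k) : Prop :=
  ∀ b : MvPolynomial V k, b.IsHomogeneous i → φ (a * b) = 0

/-- Hard Lefschetz property of the Poincare duality algebra `B` of the degree `d` functional `φ`,
whose degree `j` part is the space of degree `j` forms modulo those pairing to zero with all forms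
of degree `d - j`: multiplication by `l ^ (d - 2 j)` is injective and surjective from `B^j` to
`B^(d-j)`. -/
def LefschetzB (d : ℕ) (φ : MvPolynomial V k →ₗ[k] k) : Prop :=
  ∃ l : MvPolynomial V k, l.IsHomogeneous 1 ∧ ∀ j, 2 * j ≤ d →
    (∀ a : MvPolynomial V k, a.IsHomogeneous j →
      Null φ j (l ^ (d - 2 * j) * a) → Null φ (d - j) a) ∧
    (∀ b : MvPolynomial V k, b.IsHomogeneous (d - j) →
      ∃ a : MvPolynomial V k, a.IsHomogeneous j ∧ Null φ j (b - l ^ (d - 2 * j) * a))

end

variable {k : Type} [Field k] {n : ℕ}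

/-- `μ` is a simplicial `(d-1)`-cycle on the ordered vertex set `Fin n`: it is supported on sets
of `d` vertices and its simplicial boundary vanishes. -/
def IsCycle (d : ℕ) (μ : Finset (Fin n) → k) : Prop :=
  (∀ F, μ F ≠ 0 → F.card = d) ∧ ∀ G : Finset (Fin n), G.card + 1 = d →
    ∑ v ∈ Finset.univ \ G, (-1) ^ (G.filter (· < v)).card * μ (insert v G) = 0

/-- The support complex of `μ`. -/
def support (μ : Finset (Fin n) → k) : Set (Finset (Fin n)) := {G | ∃ F, μ F ≠ 0 ∧ G ⊆ F}

/-- `φ` is the evaluation `μ^∨` on the top degree of the Artinian reduction of the support of `μ`: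
it kills the degree `d` part of the ideal, and `det (p_v)_{v ∈ F} * φ (x_F) = μ F`. -/
def IsEval (d : ℕ) (t : Fin n → k) (μ : Finset (Fin n) → k)
    (φ : MvPolynomial (Fin n) k →ₗ[k] k) : Prop :=
  (∀ f ∈ redIdeal d (support μ) t, f.IsHomogeneous d → φ f = 0) ∧
  ∀ (F : Finset (Fin n)) (h : F.card = d),
    (Matrix.of fun i j : Fin d => t (F.orderEmbOfFin h i) ^ (j.1 + 1)).det
      * φ (∏ v ∈ F, X v) = μ F

end H380Z.Mom
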