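import Pool.Agent.H380Z.Mom.Cyc

set_option autoImplicit false
set_option linter.unusedSectionVars false

open Finset

namespace H380Z.Mom

variable {k : Type} [Field k]

open Polynomial in
/-- images of the eight moment forms -/
noncomputable def EE (k : Type) [Field k] : Fin 8 → k[X] := ![0, 0, 0, X ^ 5, X ^ 4, X ^ 3, 1, X]

open Polynomial in
lemma coeff_key (l0 l1 l2 b c b' c' : k) (r r' : k[X]) (h0 : l0 * b + l1 * c = 0)
    (h1 : l1 * b + l2 * c = 0) :
    ((C b + C c * X + X ^ 3 * r) * (C l0 * X ^ 5 + C l1 * X ^ 4 + C l2 * X ^ 3)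
      * (C b' + C c' * X + X ^ 3 * r')).coeff 5 = 0 := by
  have e0 : C l0 * C b + C l1 * C c = (0 : k[X]) := by rw [← C_mul, ← C_mul, ← C_add, h0, C_0]
  have e1 : C l1 * C b + C l2 * C c = (0 : k[X]) := by rw [← C_mul, ← C_mul, ← C_add, h1, C_0]
  have : (C b + C c * X + X ^ 3 * r) * (C l0 * X ^ 5 + C l1 * X ^ 4 + C l2 * X ^ 3)
      * (C b' + C c' * X + X ^ 3 * r') = C (l2 * b * b') * X ^ 3 + C (l2 * b * c') * X ^ 4 +
        X ^ 6 * (C l2 * C b * r' + (C l0 * C c + r * (C l0 * X ^ 2 + C l1 * X + C l2))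
          * (C b' + C c' * X + X ^ 3 * r')) := by
    simp only [C_mul]
    linear_combination (X ^ 5 * (C b' + C c' * X + X ^ 3 * r')) * e0
      + (X ^ 4 * (C b' + C c' * X + X ^ 3 * r')) * e1
  rw [this, coeff_add, coeff_add, coeff_C_mul_X_pow, coeff_C_mul_X_pow, coeff_X_pow_mul']
  simp

theorem perazzo (t : Fin 8 → k) (ht : Function.Injective t) (ht0 : ∀ v, t v ≠ 0) :
    ∃ μ : Finset (Fin 8) → k, μ ≠ 0 ∧ IsCycle 3 μ ∧
      ∃ φ : MvPolynomial (Fin 8) k →ₗ[k] k, IsEval 3 t μ φ ∧ ¬ LefschetzB 3 φ := by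
  classical
  let W : Matrix (Fin 8) (Fin 8) k := Matrix.of fun i j : Fin 8 => t (id i) ^ (j.1 + 1)
  have hW : W.det ≠ 0 := det_ne t ht ht0 id Function.injective_id
  have hg : W⁻¹ * W = 1 := Matrix.nonsing_inv_mul W (Ne.isUnit hW)
  let L : Fin 8 → Polynomial k := fun v => ∑ i, Polynomial.C (W⁻¹ i v) * EE k i
  let ψ : MvPolynomial (Fin 8) k →ₐ[k] Polynomial (Polynomial k) :=
    MvPolynomial.aeval fun v => Polynomial.C (L v) * Polynomial.X
  have hψX : ∀ v, ψ (MvPolynomial.X v) = Polynomial.C (L v) * Polynomial.X := fun v =>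
    MvPolynomial.aeval_X _ _
  have hψC : ∀ a : k, ψ (MvPolynomial.C a) = Polynomial.C (Polynomial.C a) := fun a => by
    rw [MvPolynomial.aeval_C]; rfl
  have hθ : ∀ j : Fin 8, ψ (theta t (j.1 + 1)) = Polynomial.C (EE k j) * Polynomial.X := by
    intro j
    have : ∑ v, Polynomial.C (t v ^ (j.1 + 1)) * L v = EE k j := by
      simp only [L, mul_sum]
      rw [sum_comm]
      have h1 : ∀ i, ∑ v, Polynomial.C (t v ^ (j.1 + 1)) * (Polynomial.C (W⁻¹ i v) * EE k i)
          = Polynomial.C ((1 : Matrix (Fin 8) (Fin 8) k) i j) * EE k i := by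
        intro i
        rw [← hg, Matrix.mul_apply, map_sum, sum_mul]
        refine sum_congr rfl fun v _ => ?_
        rw [Polynomial.C_mul]
        have : W v j = t v ^ (j.1 + 1) := rfl
        rw [this]
        ring
      rw [sum_congr rfl fun i _ => h1 i, sum_eq_single j]
      · simp
      · intro i _ hi
        simp [Matrix.one_apply_ne hi]
      · simp
    rw [← this, theta, map_sum, map_sum, sum_mul]
    refine sum_congr rfl fun v _ => ?_
    rw [map_mul, hψX, hψC, Polynomial.C_mul, mul_assoc]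
  let φ : MvPolynomial (Fin 8) k →ₗ[k] k :=
    { toFun := fun f => ((ψ f).coeff 3).coeff 5
      map_add' := fun f g => by simp
      map_smul' := fun c f => by simp }
  have hφ : ∀ f, φ f = ((ψ f).coeff 3).coeff 5 := fun _ => rfl
  have h3 : ∀ (f g h : MvPolynomial (Fin 8) k) (p q r : Polynomial k),
      ψ f = Polynomial.C p * Polynomial.X → ψ g = Polynomial.C q * Polynomial.X →
      ψ h = Polynomial.C r * Polynomial.X → φ (f * g * h) = (p * q * r).coeff 5 := by
    intro f g h p q r e1 e2 e3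
    have : ψ (f * g * h) = Polynomial.C (p * q * r) * Polynomial.X ^ 3 := by
      rw [map_mul, map_mul, e1, e2, e3, Polynomial.C_mul, Polynomial.C_mul]; ring
    rw [hφ, this, Polynomial.coeff_C_mul_X_pow, if_pos rfl]
  have h1 : ∀ r j, 1 ≤ j → j ≤ 3 → φ (r * theta t j) = 0 := by
    intro r j a b
    have : ψ (theta t j) = 0 := by
      interval_cases j
      · simpa [EE] using hθ 0
      · simpa [EE] using hθ 1
      · simpa [EE] using hθ 2
    rw [hφ, map_mul, this]
    simp
  have h2 : ∀ l : Multiset (Fin 8), l.card ≠ 3 → φ (l.map MvPolynomial.X).prod = 0 := by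
    intro l hl
    have : ψ (l.map MvPolynomial.X).prod
        = Polynomial.C (l.map L).prod * Polynomial.X ^ l.card := by
      clear hl
      induction l using Multiset.induction_on with
      | empty => simp
      | cons a s ih =>
        rw [Multiset.map_cons, Multiset.prod_cons, map_mul, ih, hψX, Multiset.map_cons,
          Multiset.prod_cons, Multiset.card_cons, Polynomial.C_mul]
        ring
    rw [hφ, this, Polynomial.coeff_C_mul_X_pow, if_neg (Ne.symm hl)]
    simp
  have t4 : ψ (theta t 4) = Polynomial.C (Polynomial.X ^ 5) * Polynomial.X := hθ 3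
  have t5 : ψ (theta t 5) = Polynomial.C (Polynomial.X ^ 4) * Polynomial.X := hθ 4
  have t6 : ψ (theta t 6) = Polynomial.C (Polynomial.X ^ 3) * Polynomial.X := hθ 5
  have t7 : ψ (theta t 7) = Polynomial.C 1 * Polynomial.X := hθ 6
  have t8 : ψ (theta t 8) = Polynomial.C Polynomial.X * Polynomial.X := hθ 7
  have hne : φ ≠ 0 := by
    intro h
    have := h3 _ _ _ _ _ _ t4 t7 t7
    rw [h] at this
    simp at this
  have hθh : ∀ j, (theta t j).IsHomogeneous 1 := fun j =>
    MvPolynomial.IsHomogeneous.sum _ _ _ fun v _ =>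
      (MvPolynomial.isHomogeneous_X k v).C_mul _
  have hlin : ∀ f : MvPolynomial (Fin 8) k, f.IsHomogeneous 1 →
      ∃ (b c : k) (r : Polynomial k), ψ f = Polynomial.C
        (Polynomial.C b + Polynomial.C c * Polynomial.X + Polynomial.X ^ 3 * r) * Polynomial.X := by
    intro f hf
    have hf' : f ∈ Submodule.span k (Set.range (MvPolynomial.X : _ → MvPolynomial (Fin 8) k)) := by
      rw [← MvPolynomial.homogeneousSubmodule_one_eq_span_X]; exact hf
    refine Submodule.span_induction (p := fun f _ => ∃ (b c : k) (r : Polynomial k),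
      ψ f = Polynomial.C (Polynomial.C b + Polynomial.C c * Polynomial.X
        + Polynomial.X ^ 3 * r) * Polynomial.X) ?_ ?_ ?_ ?_ hf'
    · rintro _ ⟨v, rfl⟩
      refine ⟨W⁻¹ 6 v, W⁻¹ 7 v, Polynomial.C (W⁻¹ 5 v) + Polynomial.C (W⁻¹ 4 v) * Polynomial.X
        + Polynomial.C (W⁻¹ 3 v) * Polynomial.X ^ 2, ?_⟩
      rw [hψX]
      congr 2
      simp only [L, Fin.sum_univ_eight, EE, Matrix.cons_val_zero, Matrix.cons_val_one,
        Matrix.cons_val]
      ring
    · exact ⟨0, 0, 0, by simp⟩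
    · rintro f g _ _ ⟨a, b, r, e1⟩ ⟨a', b', r', e2⟩
      refine ⟨a + a', b + b', r + r', ?_⟩
      rw [map_add, e1, e2, ← add_mul, ← Polynomial.C_add]
      congr 2
      rw [Polynomial.C_add, Polynomial.C_add]
      ring
    · rintro c f _ ⟨a, b, r, e1⟩
      refine ⟨c * a, c * b, Polynomial.C c * r, ?_⟩
      rw [MvPolynomial.smul_eq_C_mul, map_mul, hψC, e1, ← mul_assoc, ← Polynomial.C_mul]
      congr 2
      rw [Polynomial.C_mul, Polynomial.C_mul]
      ring
  refine ⟨mu t φ, mu_ne t ht ht0 φ h1 h2 hne, mu_cycle t φ h1, φ, mu_eval t ht ht0 φ h1 h2, ?_⟩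
  rintro ⟨l, hl, hL⟩
  obtain ⟨b, c, r, hbc⟩ := hlin l hl
  have main : ∀ l0 l1 l2 : k, l0 * b + l1 * c = 0 → l1 * b + l2 * c = 0 → l0 = 0 ∧ l2 = 0 := by
    intro l0 l1 l2 e0 e1
    let a := MvPolynomial.C l0 * theta t 4 + MvPolynomial.C l1 * theta t 5
      + MvPolynomial.C l2 * theta t 6
    have ha : a.IsHomogeneous 1 :=
      (((hθh 4).C_mul _).add ((hθh 5).C_mul _)).add ((hθh 6).C_mul _)
    have hψa : ψ a = Polynomial.C (Polynomial.C l0 * Polynomial.X ^ 5
        + Polynomial.C l1 * Polynomial.X ^ 4 + Polynomial.C l2 * Polynomial.X ^ 3)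
        * Polynomial.X := by
      simp only [a, map_add, map_mul, hψC, t4, t5, t6]
      ring
    have hN := (hL 1 (by norm_num)).1 a ha (by
      intro y hy
      obtain ⟨b', c', r', hy'⟩ := hlin y hy
      rw [show 3 - 2 * 1 = 1 from rfl, pow_one, h3 _ _ _ _ _ _ hbc hψa hy']
      exact coeff_key _ _ _ _ _ _ _ _ _ e0 e1)
    have n7 := hN (theta t 7 * theta t 7) ((hθh 7).mul (hθh 7))
    have n8 := hN (theta t 8 * theta t 8) ((hθh 8).mul (hθh 8))
    rw [← mul_assoc, h3 _ _ _ _ _ _ hψa t7 t7] at n7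
    rw [← mul_assoc, h3 _ _ _ _ _ _ hψa t8 t8] at n8
    constructor
    · simpa [Polynomial.coeff_X_pow] using n7
    · simpa [Polynomial.coeff_mul_X, Polynomial.coeff_X_pow] using n8
  obtain ⟨e1, e2⟩ := main (c ^ 2) (-(b * c)) (b ^ 2) (by ring) (by ring)
  have hc : c = 0 := pow_eq_zero_iff (two_ne_zero) |>.mp e1
  have hb : b = 0 := pow_eq_zero_iff (two_ne_zero) |>.mp e2
  exact one_ne_zero (main 1 0 0 (by simp [hb]) (by simp)).1

end H380Z.Mom
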