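import Pool.Agent.H380Z.Mom.Core

set_option autoImplicit false
set_option linter.unusedSectionVars false

open Finset

namespace H380Z.Mom

/-- vertices of a simplex centred at the origin -/
noncomputable def sv (m : ℕ) (i : Fin (m + 1)) : Fin m → ℝ :=
  Fin.lastCases (fun _ => -1) (fun a => Pi.single a 1) i

lemma sum_sv (m : ℕ) : ∑ i, sv m i = 0 := by
  rw [Fin.sum_univ_castSucc]
  simp only [sv, Fin.lastCases_castSucc, Fin.lastCases_last]
  ext a
  simp [Finset.sum_apply, Pi.single_apply]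

lemma exists_lin (m : ℕ) (a : Fin (m + 1) → ℝ) (ha : ∑ i, a i = 0) :
    ∃ c : (Fin m → ℝ) →ₗ[ℝ] ℝ, ∀ i, c (sv m i) = a i := by
  refine ⟨∑ j : Fin m, a j.castSucc • LinearMap.proj j, fun i => ?_⟩
  rw [Fin.sum_univ_castSucc] at ha
  refine Fin.lastCases ?_ (fun b => ?_) i
  · simp only [sv, Fin.lastCases_last, LinearMap.coe_sum, Finset.sum_apply, LinearMap.smul_apply,
      LinearMap.proj_apply, smul_eq_mul, mul_neg, mul_one, sum_neg_distrib]
    linarith
  · simp [sv, Pi.single_apply]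

lemma exists_wt (m : ℕ) (S : Finset (Fin (m + 1))) (i0 : Fin (m + 1)) (h0 : i0 ∉ S) :
    ∃ a : Fin (m + 1) → ℝ, ∑ i, a i = 0 ∧ (∀ i ∈ S, a i = 1) ∧ ∀ i ∉ S, a i < 1 := by
  classical
  refine ⟨fun i => (if i ∈ S then 1 else 0) - (if i = i0 then (S.card : ℝ) else 0), ?_, ?_, ?_⟩
  · rw [sum_sub_distrib]
    simp
  · intro i hi
    have : i ≠ i0 := fun h => h0 (h ▸ hi)
    simp [hi, this]
  · intro i hi
    have : (0 : ℝ) ≤ S.card := Nat.cast_nonneg _
    simp only [hi, if_false]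
    split_ifs <;> linarith

/-- the vertices of the free sum of two simplices -/
noncomputable def qq (m : ℕ) : Fin (m + 1) ⊕ Fin (m + 1) → (Fin m → ℝ) × (Fin m → ℝ) :=
  Sum.elim (fun i => (sv m i, 0)) (fun i => (0, sv m i))

lemma span_qq (m : ℕ) : affineSpan ℝ (Set.range (qq m)) = ⊤ := by
  have h0 : (0 : (Fin m → ℝ) × (Fin m → ℝ)) ∈ affineSpan ℝ (Set.range (qq m)) := by
    have h1 : (0 : (Fin m → ℝ) × (Fin m → ℝ)) ∈ convexHull ℝ (Set.range (qq m)) := by
      have h2 := (convex_convexHull ℝ (Set.range (qq m))).sum_mem (t := univ)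
        (w := fun _ : Fin (m + 1) => ((m + 1 : ℕ) : ℝ)⁻¹) (z := fun i => qq m (Sum.inl i))
        (fun _ _ => by positivity)
        (by simp only [sum_const, card_univ, Fintype.card_fin, nsmul_eq_mul]; field_simp)
        (fun i _ => subset_convexHull _ _ ⟨_, rfl⟩)
      rw [← smul_sum] at h2
      have h3 : ∑ i, qq m (Sum.inl i) = 0 := by
        simp only [qq, Sum.elim_inl]
        rw [← prod_mk_sum, sum_sv]
        simp
      rwa [h3, smul_zero] at h2
    exact convexHull_subset_affineSpan _ h1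
  have hsp : Submodule.span ℝ (Set.range (qq m)) = ⊤ := by
    rw [eq_top_iff]
    rintro ⟨x, y⟩ -
    have : (x, y) = ∑ a, x a • qq m (Sum.inl a.castSucc) + ∑ a, y a • qq m (Sum.inr a.castSucc) := by
      simp only [qq, Sum.elim_inl, Sum.elim_inr, sv, Fin.lastCases_castSucc, Prod.smul_mk,
        smul_zero]
      rw [← prod_mk_sum, ← prod_mk_sum]
      ext a <;> simp [Finset.sum_apply, Pi.single_apply]
    rw [this]
    refine Submodule.add_mem _ (Submodule.sum_mem _ fun a _ => ?_)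
      (Submodule.sum_mem _ fun a _ => ?_) <;>
    exact Submodule.smul_mem _ _ (Submodule.subset_span ⟨_, rfl⟩)
  rw [← affineSpan_insert_eq_affineSpan ℝ h0]
  have := affineSpan_insert_zero (k := ℝ) (Set.range (qq m))
  rw [hsp] at this
  exact SetLike.coe_injective (by rw [this]; rfl)

lemma face_iff (m : ℕ) (F : Finset (Fin (m + 1) ⊕ Fin (m + 1))) :
    F ∈ joinBd m ↔ F ≠ univ ∧ ∃ (c : ((Fin m → ℝ) × (Fin m → ℝ)) →ₗ[ℝ] ℝ) (b : ℝ),
      (∀ v ∈ F, c (qq m v) = b) ∧ ∀ v ∉ F, c (qq m v) < b := by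
  classical
  constructor
  · rintro ⟨⟨i0, hi⟩, j0, hj⟩
    refine ⟨fun h => hi (h ▸ mem_univ _), ?_⟩
    obtain ⟨a, ha, ha1, ha2⟩ := exists_wt m (univ.filter fun i => Sum.inl i ∈ F) i0 (by simp [hi])
    obtain ⟨a', ha', ha1', ha2'⟩ :=
      exists_wt m (univ.filter fun i => Sum.inr i ∈ F) j0 (by simp [hj])
    obtain ⟨c, hc⟩ := exists_lin m a ha
    obtain ⟨c', hc'⟩ := exists_lin m a' ha'
    refine ⟨c.coprod c', 1, ?_, ?_⟩
    · rintro (i | i) h
      · simp [qq, hc, ha1 i (by simp [h])]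
      · simp [qq, hc', ha1' i (by simp [h])]
    · rintro (i | i) h
      · simpa [qq, hc] using ha2 i (by simp [h])
      · simpa [qq, hc'] using ha2' i (by simp [h])
  · rintro ⟨hF, c, b, h1, h2⟩
    have hle : ∀ v, c (qq m v) ≤ b := fun v => by
      by_cases h : v ∈ F
      · exact (h1 v h).le
      · exact (h2 v h).le
    have sL : ∑ i, c (qq m (Sum.inl i)) = 0 := by
      rw [← map_sum]
      simp only [qq, Sum.elim_inl]
      rw [← prod_mk_sum, sum_sv]
      simp [Prod.mk_zero_zero]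
    have sR : ∑ i, c (qq m (Sum.inr i)) = 0 := by
      rw [← map_sum]
      simp only [qq, Sum.elim_inr]
      rw [← prod_mk_sum, sum_sv]
      simp [Prod.mk_zero_zero]
    have hb : ∀ e : Fin (m + 1) → Fin (m + 1) ⊕ Fin (m + 1), ∑ i, c (qq m (e i)) = 0 →
        (∀ i, e i ∈ F) → b = 0 := by
      intro e he hall
      rw [sum_congr rfl fun i _ => h1 _ (hall i)] at he
      simp only [sum_const, card_univ, Fintype.card_fin, nsmul_eq_mul] at he
      rcases mul_eq_zero.mp he with h | h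
      · exact absurd h (by positivity)
      · exact h
    have hall : ∀ e : Fin (m + 1) → Fin (m + 1) ⊕ Fin (m + 1), ∑ i, c (qq m (e i)) = 0 →
        b = 0 → ∀ i, e i ∈ F := by
      intro e he hb0 i
      by_contra hi
      have := sum_lt_sum (s := univ) (f := fun i => c (qq m (e i))) (g := fun _ => (0 : ℝ))
        (fun i _ => hb0 ▸ hle _) ⟨i, mem_univ _, hb0 ▸ h2 _ hi⟩
      simp only [sum_const_zero] at this
      linarith
    have hb0 : b ≠ 0 := by
      intro h
      apply hF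
      rw [eq_univ_iff_forall]
      rintro (i | i)
      · exact hall _ sL h i
      · exact hall _ sR h i
    constructor
    · by_contra h
      push Not at h
      exact hb0 (hb _ sL h)
    · by_contra h
      push Not at h
      exact hb0 (hb _ sR h)

theorem joinBd_polytope (m : ℕ) (hm : 1 ≤ m) : IsPolytopeBoundary (2 * m) (joinBd m) := by
  classical
  have e : ((Fin m → ℝ) × (Fin m → ℝ)) ≃ₗ[ℝ] (Fin (2 * m) → ℝ) :=
    LinearEquiv.ofFinrankEq _ _ (by simp; ring)
  refine ⟨?_, ?_, fun v => e (qq m v), ?_, fun F => ?_⟩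
  · haveI : Nontrivial (Fin (m + 1)) := Fin.nontrivial_iff_two_le.mpr (by omega)
    rintro (i | i)
    · obtain ⟨j, hj⟩ := exists_ne i
      exact ⟨⟨j, by simp [hj]⟩, ⟨0, by simp⟩⟩
    · obtain ⟨j, hj⟩ := exists_ne i
      exact ⟨⟨0, by simp⟩, ⟨j, by simp [hj]⟩⟩
  · rintro F ⟨⟨i, hi⟩, j, hj⟩ G hG
    exact ⟨⟨i, fun h => hi (hG h)⟩, j, fun h => hj (hG h)⟩
  · have h1 : Set.range (fun v => e (qq m v)) = e.toLinearMap.toAffineMap '' Set.range (qq m) := by
      rw [← Set.range_comp]; rfl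
    rw [h1, ← AffineSubspace.map_span, span_qq]
    exact AffineMap.map_top_of_surjective _ e.surjective
  · rw [face_iff]
    refine and_congr Iff.rfl ⟨?_, ?_⟩
    · rintro ⟨c, b, h1, h2⟩
      exact ⟨c ∘ₗ e.symm.toLinearMap, b, fun v hv => by simp [h1 v hv],
        fun v hv => by simpa using h2 v hv⟩
    · rintro ⟨c, b, h1, h2⟩
      exact ⟨c ∘ₗ e.toLinearMap, b, fun v hv => by simp [h1 v hv],
        fun v hv => by simpa using h2 v hv⟩

end H380Z.Mom
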