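import Pool.Agent.H380Z.Mom.Poly

set_option autoImplicit false
set_option linter.unusedSectionVars false

open Finset

namespace H380Z.Mom

variable {k : Type} [Field k]

/-- The failure statement for the join of two `m`-simplex boundaries. -/
def Bad (k : Type) [Field k] (m : ℕ) : Prop :=
  ∃ t : Fin (m + 1) ⊕ Fin (m + 1) → k, Function.Injective t ∧ (∀ v, t v ≠ 0) ∧
    ¬ LefschetzA (2 * m) (redIdeal (2 * m) (joinBd m) t)

lemma pencil [Infinite k] (m : ℕ) (hm : 1 ≤ m) (S : Set k) (hS : S.Finite)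
    (o : k → Fin (m + 1) → k) (J : k → k) (H0 H1 : ∀ (B : Type) [CommRing B], B → B → B)
    (h0 : ∀ c ∉ S, o c 0 = c) (hinj : ∀ c ∉ S, Function.Injective (o c))
    (hne : ∀ c ∉ S, ∀ i, o c i ≠ 0)
    (hid : ∀ c ∉ S, ∀ (B : Type) [CommRing B] [Algebra k B] (σ τ : B),
      ∏ i, (σ - o c i • τ) = H0 B σ τ + J c • H1 B σ τ)
    (hnil : ∀ (B : Type) [CommRing B] [Algebra k B] (σ τ : B), H0 B σ τ = 0 → H1 B σ τ = 0 →
      ∀ α β : k, (α • σ + β • τ) ^ (2 * m) = 0) : Bad k m := by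
  obtain ⟨c1, hc1⟩ := hS.exists_notMem
  obtain ⟨c2, hc2⟩ := (hS.union (Set.finite_range (o c1))).exists_notMem
  have hc2S : c2 ∉ S := fun h => hc2 (Or.inl h)
  have hc2o : ∀ i, o c1 i ≠ c2 := fun i h => hc2 (Or.inr ⟨i, h⟩)
  have hJ : J c1 ≠ J c2 := by
    intro h
    have e1 := hid c1 hc1 k c2 1
    have e2 := hid c2 hc2S k c2 1
    rw [h, ← e2, prod_eq_zero (f := fun i => c2 - o c2 i • (1 : k)) (mem_univ 0)
      (by simp [h0 c2 hc2S])] at e1
    obtain ⟨i, -, hi⟩ := prod_eq_zero_iff.mp e1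
    apply hc2o i
    simp only [smul_eq_mul, mul_one] at hi
    exact (sub_eq_zero.mp hi).symm
  have key : ∀ (B : Type) [CommRing B] [Algebra k B] (σ τ : B),
      ∏ i, (σ - o c1 i • τ) = 0 → ∏ i, (σ - o c2 i • τ) = 0 →
      ∀ α β : k, (α • σ + β • τ) ^ (2 * m) = 0 := by
    intro B _ _ σ τ e1 e2
    rw [hid c1 hc1] at e1
    rw [hid c2 hc2S] at e2
    have e3 : (J c1 - J c2) • H1 B σ τ = 0 := by
      rw [sub_smul]; linear_combination e1 - e2
    have e4 : H1 B σ τ = 0 := by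
      have := congrArg (fun x => (J c1 - J c2)⁻¹ • x) e3
      simpa [smul_smul, inv_mul_cancel₀ (sub_ne_zero.mpr hJ)] using this
    rw [e4, smul_zero, add_zero] at e1
    exact hnil B σ τ e1 e4
  have hdis : ∀ i j, o c1 i ≠ o c2 j := by
    intro i j h
    have := key k (o c1 i) 1 (prod_eq_zero (mem_univ i) (by simp))
      (prod_eq_zero (mem_univ j) (by simp [h])) 0 1
    simp at this
  refine ⟨Sum.elim (o c1) (o c2), ?_, ?_, ?_⟩
  · exact (hinj c1 hc1).sumElim (hinj c2 hc2S) hdis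
  · rintro (i | i)
    · exact hne c1 hc1 i
    · exact hne c2 hc2S i
  · refine not_lefschetz m hm _ ((hinj c1 hc1).sumElim (hinj c2 hc2S) hdis) ?_ key
    rintro (i | i)
    · exact hne c1 hc1 i
    · exact hne c2 hc2S i

lemma finite_roots (P : Polynomial k) (hP : P.Monic) : {c | P.eval c = 0}.Finite :=
  (P.finite_setOf_isRoot hP.ne_zero)

lemma bad_two [Infinite k] [CharP k 2] : Bad k 2 := by
  have h2 : (2 : k) = 0 := by exact_mod_cast CharP.cast_eq_zero k 2
  refine pencil 2 (by norm_num) {c | c * (c + 1) * (c ^ 2 + c + 1) = 0} ?_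
    (fun c => ![c, (c + 1)⁻¹, (c + 1) * c⁻¹]) (fun c => c + (c + 1)⁻¹ + (c + 1) * c⁻¹)
    (fun B _ σ τ => σ ^ 3 + σ * τ ^ 2 + τ ^ 3) (fun B _ σ τ => σ ^ 2 * τ + σ * τ ^ 2)
    ?_ ?_ ?_ ?_ ?_
  · have := finite_roots (k := k) (Polynomial.X * (Polynomial.X + 1) *
      (Polynomial.X ^ 2 + Polynomial.X + 1)) (by monicity!)
    simpa using this
  · intro c _; rfl
  · intro c hc
    simp only [Set.mem_ofPred_eq, mul_eq_zero, not_or] at hc
    obtain ⟨⟨h0, h1⟩, h3⟩ := hc
    have a1 : c ≠ (c + 1)⁻¹ := by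
      intro h; apply h3; field_simp at h; linear_combination h + h2
    have a2 : c ≠ (c + 1) * c⁻¹ := by
      intro h; apply h3; field_simp at h; linear_combination h + (c + 1) * h2
    have a3 : (c + 1)⁻¹ ≠ (c + 1) * c⁻¹ := by
      intro h; apply h3; field_simp at h; linear_combination (-1) * h
    intro i j hij
    fin_cases i <;> fin_cases j <;> simp_all [eq_comm]
  · intro c hc i
    simp only [Set.mem_ofPred_eq, mul_eq_zero, not_or] at hc
    obtain ⟨⟨h0, h1⟩, h3⟩ := hc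
    fin_cases i <;> simp [h0, h1]
  · intro c hc B _ _ σ τ
    simp only [Set.mem_ofPred_eq, mul_eq_zero, not_or] at hc
    obtain ⟨⟨h0, h1⟩, h3⟩ := hc
    have hB : (2 : B) = 0 := by
      have := congrArg (algebraMap k B) h2
      simpa [map_ofNat] using this
    have e3 : c * (c + 1)⁻¹ * ((c + 1) * c⁻¹) = 1 := by field_simp
    have e2 : c * (c + 1)⁻¹ + c * ((c + 1) * c⁻¹) + (c + 1)⁻¹ * ((c + 1) * c⁻¹)
        = c + (c + 1)⁻¹ + (c + 1) * c⁻¹ + 1 := by
      field_simp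
      linear_combination (-c) * h2
    have e3' := congrArg (algebraMap k B) e3
    have e2' := congrArg (algebraMap k B) e2
    simp only [map_mul, map_add, map_one] at e3' e2'
    rw [Fin.prod_univ_three]
    simp only [Algebra.smul_def, Matrix.cons_val_zero, Matrix.cons_val_one,
      Matrix.cons_val, map_mul, map_add, map_one]
    set a := algebraMap k B c
    set b := algebraMap k B (c + 1)⁻¹
    set u := (a + 1) * algebraMap k B c⁻¹
    linear_combination (σ * τ ^ 2) * e2' - τ ^ 3 * e3' - ((a + b + u) * σ ^ 2 * τ + τ ^ 3) * hB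
  · intro B _ _ σ τ e0 e1 α β
    have hB : (2 : B) = 0 := by
      have := congrArg (algebraMap k B) h2
      simpa [map_ofNat] using this
    simp only [Algebra.smul_def]
    set a := algebraMap k B α
    set b := algebraMap k B β
    have s4 : σ ^ 4 = 0 := by linear_combination σ * e0 - τ * e1
    have t4 : τ ^ 4 = 0 := by linear_combination τ * e0 - σ * e1 + τ * e1 - σ * τ ^ 3 * hB
    linear_combination a ^ 4 * s4 + b ^ 4 * t4 +
      (2 * a ^ 3 * b * σ ^ 3 * τ + 3 * a ^ 2 * b ^ 2 * σ ^ 2 * τ ^ 2 + 2 * a * b ^ 3 * σ * τ ^ 3) * hB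

lemma bad_three [Infinite k] [CharP k 3] : Bad k 3 := by
  have h3 : (3 : k) = 0 := by exact_mod_cast CharP.cast_eq_zero k 3
  refine pencil 3 (by norm_num)
    {c | c * (c + 1) * (c - 1) * (c ^ 2 + 1) * (c ^ 2 + 2 * c - 1) * (c ^ 2 - 2 * c - 1) = 0} ?_
    (fun c => ![c, -c⁻¹, (c + 1) * (c - 1)⁻¹, -((c - 1) * (c + 1)⁻¹)])
    (fun c => -(c + -c⁻¹ + (c + 1) * (c - 1)⁻¹ + -((c - 1) * (c + 1)⁻¹)))
    (fun B _ σ τ => σ ^ 4 - σ ^ 2 * τ ^ 2 + τ ^ 4) (fun B _ σ τ => σ ^ 3 * τ - σ * τ ^ 3)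
    ?_ ?_ ?_ ?_ ?_
  · have := finite_roots (k := k) (Polynomial.X * (Polynomial.X + 1) * (Polynomial.X - 1) *
      (Polynomial.X ^ 2 + 1) * (Polynomial.X ^ 2 + 2 * Polynomial.X - 1) *
      (Polynomial.X ^ 2 - 2 * Polynomial.X - 1)) (by monicity!)
    simpa using this
  · intro c _; rfl
  · intro c hc
    simp only [Set.mem_ofPred_eq, mul_eq_zero, not_or] at hc
    obtain ⟨⟨⟨⟨⟨h0, h1⟩, h1'⟩, g1⟩, g2⟩, g3⟩ := hc
    have a1 : c ≠ -c⁻¹ := by
      intro h; apply g1; field_simp at h; linear_combination h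
    have a2 : c ≠ (c + 1) * (c - 1)⁻¹ := by
      intro h; apply g3; field_simp at h; linear_combination h
    have a3 : c ≠ -((c - 1) * (c + 1)⁻¹) := by
      intro h; apply g2; field_simp at h; linear_combination h
    have a4 : -c⁻¹ ≠ (c + 1) * (c - 1)⁻¹ := by
      intro h; apply g2; field_simp at h; linear_combination (-1) * h
    have a5 : -c⁻¹ ≠ -((c - 1) * (c + 1)⁻¹) := by
      intro h; apply g3; field_simp at h; linear_combination h
    have a6 : (c + 1) * (c - 1)⁻¹ ≠ -((c - 1) * (c + 1)⁻¹) := by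
      intro h; apply g1; field_simp at h; linear_combination (-1) * h + (c ^ 2 + 1) * h3
    have b1 := a1.symm; have b2 := a2.symm; have b3 := a3.symm
    have b4 := a4.symm; have b5 := a5.symm; have b6 := a6.symm
    intro i j hij
    fin_cases i <;> fin_cases j <;> first | rfl | (exfalso; simp only [Matrix.cons_val_zero', Matrix.cons_val_succ'] at hij; contradiction)
  · intro c hc i
    simp only [Set.mem_ofPred_eq, mul_eq_zero, not_or] at hc
    obtain ⟨⟨⟨⟨⟨h0, h1⟩, h1'⟩, g1⟩, g2⟩, g3⟩ := hc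
    fin_cases i <;> simp [h0, h1, h1']
  · intro c hc B _ _ σ τ
    simp only [Set.mem_ofPred_eq, mul_eq_zero, not_or] at hc
    obtain ⟨⟨⟨⟨⟨h0, h1⟩, h1'⟩, g1⟩, g2⟩, g3⟩ := hc
    have hB : (3 : B) = 0 := by
      have := congrArg (algebraMap k B) h3
      simpa [map_ofNat] using this
    have e1 : c * (-c⁻¹) = -1 := by field_simp
    have e2 : ((c + 1) * (c - 1)⁻¹) * (-((c - 1) * (c + 1)⁻¹)) = -1 := by field_simp
    have e3 : (c + -c⁻¹) * ((c + 1) * (c - 1)⁻¹ + -((c - 1) * (c + 1)⁻¹)) = 1 + 1 + 1 + 1 := by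
      field_simp
      ring
    have e1' := congrArg (algebraMap k B) e1
    have e2' := congrArg (algebraMap k B) e2
    have e3' := congrArg (algebraMap k B) e3
    rw [map_mul, map_neg (algebraMap k B) 1, map_one] at e1' e2'
    rw [map_mul, map_add, map_add, map_add, map_add, map_add, map_one] at e3'
    rw [Fin.prod_univ_four]
    simp only [Algebra.smul_def, Matrix.cons_val_zero, Matrix.cons_val_one,
      Matrix.cons_val]
    rw [map_neg (algebraMap k B) (_ + _), map_add, map_add, map_add]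
    set a := algebraMap k B c
    set b := algebraMap k B (-c⁻¹)
    set u := algebraMap k B ((c + 1) * (c - 1)⁻¹)
    set v := algebraMap k B (-((c - 1) * (c + 1)⁻¹))
    linear_combination (σ ^ 2 * τ ^ 2 - (u + v) * σ * τ ^ 3 + u * v * τ ^ 4) * e1'
      + (σ ^ 2 * τ ^ 2 - (a + b) * σ * τ ^ 3 - τ ^ 4) * e2' + σ ^ 2 * τ ^ 2 * e3'
      + σ ^ 2 * τ ^ 2 * hB
  · intro B _ _ σ τ e0 e1 α β
    have hB : (3 : B) = 0 := by
      have := congrArg (algebraMap k B) h3
      simpa [map_ofNat] using this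
    simp only [Algebra.smul_def]
    set a := algebraMap k B α
    set b := algebraMap k B β
    have s6 : σ ^ 6 = 0 := by linear_combination σ ^ 2 * e0 + σ * τ * e1
    have t6 : τ ^ 6 = 0 := by linear_combination τ ^ 2 * e0 - σ * τ * e1
    have m6 : σ ^ 3 * τ ^ 3 = 0 := by
      linear_combination σ * τ * e0 - σ ^ 2 * e1 + τ ^ 2 * e1
    linear_combination a ^ 6 * s6 + b ^ 6 * t6 + 20 * a ^ 3 * b ^ 3 * m6 +
      (2 * a ^ 5 * b * σ ^ 5 * τ + 5 * a ^ 4 * b ^ 2 * σ ^ 4 * τ ^ 2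
        + 5 * a ^ 2 * b ^ 4 * σ ^ 2 * τ ^ 4 + 2 * a * b ^ 5 * σ * τ ^ 5) * hB

lemma bad_large [Infinite k] (m : ℕ) (hm : 2 ≤ m) [hp : Fact (m + 2).Prime] [CharP k (m + 2)] :
    Bad k m := by
  obtain ⟨g, hg⟩ := IsCyclic.exists_ofOrder_eq_natCard (α := (ZMod (m + 2))ˣ)
  have hcard : Nat.card (ZMod (m + 2))ˣ = m + 1 := by
    rw [Nat.card_eq_fintype_card, ZMod.card_units]; rfl
  rw [hcard] at hg
  let φ : ZMod (m + 2) →+* k := ZMod.castHom (dvd_refl _) k
  have hζ : IsPrimitiveRoot (φ g) (m + 1) := by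
    have h1 : IsPrimitiveRoot g (m + 1) := hg ▸ IsPrimitiveRoot.orderOf g
    have h2 : IsPrimitiveRoot (g : ZMod (m + 2)) (m + 1) := IsPrimitiveRoot.coe_units_iff.mpr h1
    exact h2.map_of_injective φ.injective
  set ζ := φ g
  have hζ0 : ζ ≠ 0 := hζ.ne_zero (by omega)
  refine pencil m (by omega) {0} (Set.finite_singleton 0) (fun c i => ζ ^ i.1 * c)
    (fun c => -c ^ (m + 1)) (fun B _ σ _ => σ ^ (m + 1)) (fun B _ _ τ => τ ^ (m + 1))
    ?_ ?_ ?_ ?_ ?_
  · intro c _; simp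
  · intro c hc i j hij
    have hc0 : c ≠ 0 := hc
    exact Fin.ext (hζ.pow_inj i.2 j.2 (mul_right_cancel₀ hc0 hij))
  · intro c hc i
    exact mul_ne_zero (pow_ne_zero _ hζ0) hc
  · intro c _ B _ _ σ τ
    have h1 : IsPrimitiveRoot (Polynomial.C ζ : Polynomial k) (m + 1) :=
      hζ.map_of_injective Polynomial.C_injective
    have h2 := X_pow_sub_C_eq_prod h1 (Nat.succ_pos m)
      (rfl : (Polynomial.C c * Polynomial.X : Polynomial k) ^ (m + 1) = _)
    have h3 := congrArg (Polynomial.eval₂RingHom (Polynomial.aeval τ : Polynomial k →ₐ[k] B).toRingHom σ) h2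
    simp only [map_sub, map_pow, map_prod, Polynomial.coe_eval₂RingHom, Polynomial.eval₂_X,
      Polynomial.eval₂_C, AlgHom.toRingHom_eq_coe, RingHom.coe_coe, map_mul, Polynomial.aeval_C,
      Polynomial.aeval_X] at h3
    rw [Fin.prod_univ_eq_prod_range (fun i => σ - (ζ ^ i * c) • τ) (m + 1)]
    simp only [Algebra.smul_def, map_mul, map_pow, map_neg, mul_assoc]
    rw [← h3]
    ring
  · intro B _ _ σ τ e0 e1 α β
    have hB : ((m + 2 : ℕ) : B) = 0 := by
      rw [← map_natCast (algebraMap k B), CharP.cast_eq_zero k (m + 2), map_zero]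
    rw [add_pow]
    refine sum_eq_zero fun i hi => ?_
    rcases lt_trichotomy i m with h | h | h
    · obtain ⟨j, hj⟩ : ∃ j, 2 * m - i = m + 1 + j := ⟨2 * m - i - (m + 1), by omega⟩
      rw [hj, smul_pow β, pow_add τ, e1]
      simp
    · subst h
      have hd : (i + 2) ∣ (2 * i).choose i := by
        have := hp.out.dvd_choose_add (a := i) (b := i) (by omega) (by omega) (by omega)
        rwa [← two_mul] at this
      obtain ⟨r, hr⟩ := hd
      rw [hr, Nat.cast_mul, hB]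
      simp
    · obtain ⟨j, hj⟩ : ∃ j, i = m + 1 + j := ⟨i - (m + 1), by omega⟩
      rw [smul_pow α, hj, pow_add σ, e0]
      simp

theorem bad_pos [Infinite k] (h : ringChar k ≠ 0) : ∃ m, 1 ≤ m ∧ Bad k m := by
  have hp : (ringChar k).Prime := (CharP.char_is_prime_or_zero k (ringChar k)).resolve_right h
  by_cases h2 : ringChar k = 2
  · have : CharP k 2 := h2 ▸ ringChar.charP k
    exact ⟨2, by norm_num, bad_two⟩
  by_cases h3 : ringChar k = 3
  · have : CharP k 3 := h3 ▸ ringChar.charP k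
    exact ⟨3, by norm_num, bad_three⟩
  obtain ⟨m, hm⟩ : ∃ m, ringChar k = m + 2 := ⟨ringChar k - 2, by have := hp.two_le; omega⟩
  have : CharP k (m + 2) := hm ▸ ringChar.charP k
  have : Fact (m + 2).Prime := ⟨hm ▸ hp⟩
  exact ⟨m, by omega, bad_large m (by omega)⟩

end H380Z.Mom
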